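import Pool.Agent.Run7.h642.Main

/-!
# Compact Alexandrov spaces with a locally cone-like stratification

Finiteness of the number of isomorphism classes of bounded constructible complexes, for every
compact Alexandrov space whose extremal stratification is refined by a finite stratification that
is locally a product of a Euclidean space with an open cone over a compact space.
-/

open CategoryTheory Run7.h642

namespace Pool.Agent.Results.MP_c9ef16_gt.ConelikeSpaces

universe w

theorem result (k : Type) [Field k] [Finite k] (X : Type) [MetricSpace X] (hX : IsAlexandrov X)
    (ι : Type) [PartialOrder ι] [Finite ι] (σ : X → ι) (hσ : LocallyConelike σ)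
    (href : ∀ x y : X, σ y = σ x → y ∈ stratum x)
    [HasDerivedCategory.{w} (ShV k (TopCat.of X))] (N : ℕ) : FinitelyManyClasses k X N :=
  have : CompactSpace X := hX.compact
  finitelyManyClasses_of_conelike hσ (fun x y h => href y x h) N

end Pool.Agent.Results.MP_c9ef16_gt.ConelikeSpaces
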