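import Pool.Agent.Run7.h642.Poly

/-!
# Compact Alexandrov spaces with conical neighbourhoods

Finiteness of the number of isomorphism classes of bounded constructible complexes, for every
compact Alexandrov space in which every point has a ball isometric to a ball around the apex of
a Euclidean cone (compact polyhedral Alexandrov spaces).
-/

open CategoryTheory Run7.h642

namespace Pool.Agent.Results.MP_c9ef16_gt.ConicalSpaces

universe w

theorem result (k : Type) [Field k] [Finite k] (X : Type) [MetricSpace X] (hX : IsAlexandrov X)
    (hcone : ∀ x : X, HasConicalNhd x)
    [HasDerivedCategory.{w} (ShV k (TopCat.of X))] (N : ℕ) : FinitelyManyClasses k X N :=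
  finitelyManyClasses_of_conical hX hcone N

end Pool.Agent.Results.MP_c9ef16_gt.ConicalSpaces
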